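import Pool.Agent.W81.RD.PowG

/-!
Primes of the form `m^d + k` for almost all `k` in every interval of length at least
`x^(d-1) (log x)^B`, where `m ≤ x`.
-/

set_option autoImplicit false

namespace Pool.Agent.Results.MP_10deed_nt.ShortIntervalShifts

open Finset Filter Polynomial

/-- the number of `1 ≤ m ≤ y` with `m^d + k` prime -/
noncomputable def primeCount (d : ℕ) (k : ℤ) (y : ℕ) : ℝ :=
  (((Icc 1 y).filter (fun m : ℕ => Nat.Prime (Int.toNat ((m : ℤ) ^ d + k)))).card : ℝ)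

/-- the sum of `1 / log (m^d + k)` over the `1 ≤ m ≤ y` with `m^d + k ≥ 2` -/
noncomputable def logSum (d : ℕ) (k : ℤ) (y : ℕ) : ℝ :=
  ∑ m ∈ (Icc 1 y).filter (fun m : ℕ => 2 ≤ (m : ℤ) ^ d + k), 1 / Real.log (((m : ℤ) ^ d + k : ℤ) : ℝ)

/-- the number of residue classes `r` modulo `p` with `r^d + k ≡ 0` -/
noncomputable def roots (d : ℕ) (k : ℤ) (p : ℕ) : ℕ :=
  ((range p).filter (fun r : ℕ => (p : ℤ) ∣ (r : ℤ) ^ d + k)).card

/-- the Euler product `∏_{p ≤ z} (1 - roots(p)/p) / (1 - 1/p)` -/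
noncomputable def eulerProd (d z : ℕ) (k : ℤ) : ℝ :=
  ∏ p ∈ (Icc 1 z).filter Nat.Prime, (1 - (roots d k p : ℝ) / p) / (1 - 1 / (p : ℝ))

open Classical in
/-- **Primes `m^d + k`, almost all `k` of short intervals.** For all `d > 1` and `C, U`, all `E`
large in terms of these, there are `B, X₀` such that for all `x ≥ X₀`, with `z = ⌊(log x)^E⌋`, and
every interval `(k₀, k₀ + A]` of integers with `|k₀|, A ≤ x^d (log x)^C` and length
`A ≥ x^(d-1) (log x)^B`, all integers `k` of the interval but at most `A/(log x)^U` satisfy: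
`𝔖_z(k) ≥ 1/log x` and, uniformly for all `y ≤ x`, the number of `1 ≤ m ≤ y` with `m^d + k` prime
equals `𝔖_z(k) (∑_{m ≤ y} 1/log(m^d + k) + O*(x/(log x)^U))`. -/
theorem result (d : ℕ) (hd : 1 < d) (C U : ℕ) : ∃ E' : ℕ, ∀ E : ℕ, E' ≤ E →
    ∃ B X0 : ℕ, ∀ x : ℕ, X0 ≤ x →
    ∀ (k0 : ℤ) (A : ℕ), |(k0 : ℝ)| ≤ (x : ℝ) ^ d * Real.log x ^ C →
    (x : ℝ) ^ (d - 1) * Real.log x ^ B ≤ A → (A : ℝ) ≤ (x : ℝ) ^ d * Real.log x ^ C →
    ∃ Bad : Finset ℤ, (Bad.card : ℝ) ≤ A / Real.log x ^ U ∧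
      ∀ k : ℤ, k0 < k → k ≤ k0 + A → k ∉ Bad →
        1 / Real.log x ≤ eulerProd d ⌊Real.log x ^ E⌋₊ k ∧
        ∀ y : ℕ, y ≤ x →
          |primeCount d k y - eulerProd d ⌊Real.log x ^ E⌋₊ k * logSum d k y| ≤
            eulerProd d ⌊Real.log x ^ E⌋₊ k * (x / Real.log x ^ U) := by
  obtain ⟨E', h⟩ := Pool.Agent.W81.RD.powG d hd 1 (Or.inl rfl) C U
  refine ⟨E' + 1, fun E hE => ?_⟩
  obtain ⟨B, hB⟩ := h E (by omega)
  obtain ⟨X0, hX0⟩ := eventually_atTop.mp (hB.and (Pool.Agent.H442R2.EHI.evt_log_ge 4))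
  refine ⟨B, X0, fun x hx k0 A hk0 hA1 hA2 => ?_⟩
  obtain ⟨hx1, hL4⟩ := hX0 x hx
  have hL1 : 1 ≤ Real.log x := by linarith
  obtain ⟨Bad, hBad, hgood⟩ := hx1 k0 A ⌊Real.log x ^ E⌋₊ (by
      have h1 : Real.log x ^ E < ⌊Real.log x ^ E⌋₊ + 1 := Nat.lt_floor_add_one _
      have h2 : Real.log x ^ (E' + 1) ≤ Real.log x ^ E := pow_le_pow_right₀ hL1 hE
      have h3 : 1 ≤ Real.log x ^ E' := one_le_pow₀ hL1
      rw [pow_succ] at h2
      nlinarith) (Nat.floor_le (by positivity)) hk0 hA1 hA2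
  refine ⟨Bad, hBad, fun k hk1 hk2 hkB => ?_⟩
  obtain ⟨h1, h2⟩ := hgood k (mem_Ioc.2 ⟨hk1, hk2⟩) hkB
  have e1 : Pool.Agent.H300R2.BH.SS ⌊Real.log x ^ E⌋₊ (Polynomial.C 1 * X ^ d + Polynomial.C k) =
      eulerProd d ⌊Real.log x ^ E⌋₊ k := by
    unfold Pool.Agent.H300R2.BH.SS eulerProd Pool.Agent.H300R2.BH.rho roots
    refine prod_congr rfl fun p _ => ?_
    simp_rw [Pool.Agent.W81.RD.eval_P, one_mul]
  have e2 : ∀ y : ℕ, Pool.Agent.H300R2.BH.pv (Polynomial.C 1 * X ^ d + Polynomial.C k) y = primeCount d k y := by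
    intro y
    unfold Pool.Agent.H300R2.BH.pv primeCount
    simp_rw [Pool.Agent.W81.RD.eval_P, one_mul]
  have e3 : ∀ y : ℕ, Pool.Agent.H300R2.BH.lF (Polynomial.C 1 * X ^ d + Polynomial.C k) y = logSum d k y := by
    intro y
    unfold Pool.Agent.H300R2.BH.lF logSum
    simp_rw [Pool.Agent.W81.RD.eval_P, one_mul]
  rw [e1] at h1 h2
  refine ⟨h1, fun y hy => ?_⟩
  have h3 := h2 y hy
  rw [e2, e3] at h3
  refine h3.trans ?_
  have h4 : 0 ≤ eulerProd d ⌊Real.log x ^ E⌋₊ k := le_trans (by positivity) h1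
  apply mul_le_mul_of_nonneg_left _ h4
  apply div_le_div_of_nonneg_left (Nat.cast_nonneg _) (by positivity)
  exact pow_le_pow_right₀ hL1 (Nat.le_succ _)

end Pool.Agent.Results.MP_10deed_nt.ShortIntervalShifts
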